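import Pool.Agent.H32.RK.TargetsA
import Pool.Agent.H32.RK.TargetsB

/-!
# Pairs of quadratic forms over a number field (`MP_63b6b1_nt`), row STR: the structure lemma

Adaptation of `Pool.Agent.H75.RQ.STR` (the field of rational numbers).
-/

set_option autoImplicit false

open Finset NumberField Pool.Agent.H32.RQ Pool.Agent.H32.RK

namespace Pool.Agent.H96.RK

/-- the linear algebra -/
theorem str_alg {K : Type} [Field K] {s : ℕ} (x y : Fin s → K) (m : Fin s → Fin s → K)
    (hs : ∀ i l, m i l = m l i)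
    (h2 : ∀ i j a e, y a * (x i * m j e - x j * m i e) = y e * (x i * m j a - x j * m i a))
    (h3 : ∀ i j a e, x a * (y i * m j e - y j * m i e) = x e * (y i * m j a - y j * m i a))
    (p q : Fin s) (hM : x p * y q - x q * y p ≠ 0) :
    ∃ α β : K, ∀ i l, m i l = α * x i * x l + β * y i * y l := by
  have hy : ∃ a, y a ≠ 0 := by
    by_contra hne
    push Not at hne
    exact hM (by rw [hne p, hne q]; ring)
  have hx : ∃ a, x a ≠ 0 := by
    by_contra hne
    push Not at hne
    exact hM (by rw [hne p, hne q]; ring)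
  obtain ⟨a0, ha0⟩ := hy
  obtain ⟨b0, hb0⟩ := hx
  set lam : K := (x p * m q a0 - x q * m p a0) / y a0 with hlam
  set mu : K := (y p * m q b0 - y q * m p b0) / x b0 with hmu
  have e1 : ∀ e, x p * m q e - x q * m p e = lam * y e := by
    intro e
    rw [hlam, div_mul_eq_mul_div, eq_div_iff ha0]
    linear_combination h2 p q a0 e
  have e2 : ∀ e, y p * m q e - y q * m p e = mu * x e := by
    intro e
    rw [hmu, div_mul_eq_mul_div, eq_div_iff hb0]
    linear_combination h3 p q b0 e
  set M : K := x p * y q - x q * y p with hMd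
  have e3 : ∀ e, M * m p e = lam * y p * y e - mu * x p * x e := by
    intro e
    rw [hMd]
    linear_combination (y p) * e1 e - (x p) * e2 e
  have e4 : ∀ e, M * m q e = lam * y q * y e - mu * x q * x e := by
    intro e
    rw [hMd]
    linear_combination (y q) * e1 e - (x q) * e2 e
  refine ⟨-mu / M, lam / M, ?_⟩
  have f3 : ∀ e, m p e = -mu / M * x p * x e + lam / M * y p * y e := by
    intro e
    field_simp
    linear_combination e3 e
  have f4 : ∀ e, m q e = -mu / M * x q * x e + lam / M * y q * y e := by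
    intro e
    field_simp
    linear_combination e4 e
  generalize -mu / M = α at f3 f4
  generalize lam / M = β at f3 f4
  intro j e
  -- the difference
  set m' : Fin s → Fin s → K := fun j e => m j e - (α * x j * x e + β * y j * y e) with hm'
  have g1 : ∀ a e, y a * (x p * m' j e) = y e * (x p * m' j a) := by
    intro a e
    simp only [hm']
    linear_combination h2 p j a e + y a * x j * f3 e - y e * x j * f3 a
  have g2 : ∀ a e, y a * (x q * m' j e) = y e * (x q * m' j a) := by
    intro a e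
    simp only [hm']
    linear_combination h2 q j a e + y a * x j * f4 e - y e * x j * f4 a
  have g3 : ∀ a e, y a * m' j e = y e * m' j a := by
    intro a e
    by_cases hp : x p = 0
    · have hq : x q ≠ 0 := by
        intro hq
        exact hM (by rw [hMd, hp, hq]; ring)
      have := g2 a e
      have h5 : x q * (y a * m' j e) = x q * (y e * m' j a) := by linear_combination this
      exact mul_left_cancel₀ hq h5
    · have := g1 a e
      have h5 : x p * (y a * m' j e) = x p * (y e * m' j a) := by linear_combination this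
      exact mul_left_cancel₀ hp h5
  have zp : m' j p = 0 := by
    simp only [hm']
    rw [hs j p, f3 j]
    ring
  have zq : m' j q = 0 := by
    simp only [hm']
    rw [hs j q, f4 j]
    ring
  have hz : m' j e = 0 := by
    by_cases hp : y p = 0
    · have hq : y q ≠ 0 := by
        intro hq
        exact hM (by rw [hMd, hp, hq]; ring)
      have h5 := g3 q e
      rw [zq, mul_zero] at h5
      exact (mul_eq_zero.1 h5).resolve_left hq
    · have h5 := g3 p e
      rw [zp, mul_zero] at h5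
      exact (mul_eq_zero.1 h5).resolve_left hp
  have h9 : m j e - (α * x j * x e + β * y j * y e) = 0 := hz
  exact sub_eq_zero.1 h9

section

variable {K : Type} [Field K] [NumberField K]

omit [NumberField K] in
theorem cz : ((0 : 𝓞 K) : K) = 0 := map_zero (algebraMap (𝓞 K) K)

omit [NumberField K] in
theorem cmu (a b : 𝓞 K) : ((a * b : 𝓞 K) : K) = a * b := map_mul (algebraMap (𝓞 K) K) a b

omit [NumberField K] in
theorem csb (a b : 𝓞 K) : ((a - b : 𝓞 K) : K) = a - b := map_sub (algebraMap (𝓞 K) K) a b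

omit [NumberField K] in
theorem cad (a b : 𝓞 K) : ((a + b : 𝓞 K) : K) = a + b := map_add (algebraMap (𝓞 K) K) a b

omit [NumberField K] in
theorem csm {n : ℕ} (f : Fin n → 𝓞 K) : ((∑ i, f i : 𝓞 K) : K) = ∑ i, (f i : K) :=
  map_sum (algebraMap (𝓞 K) K) f _

/-- the dual is closed under combinations with integral coefficients -/
theorem ind_sum (hDUA : T_DUA K) {n : ℕ} (l : Fin n → 𝓞 K) (z : Fin n → K)
    (hz : ∀ i, InD (z i)) : InD (∑ i, (l i : K) * z i) := by
  obtain ⟨hadd, -, hmul, hint, -⟩ := hDUA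
  classical
  have key : ∀ T : Finset (Fin n), InD (∑ i ∈ T, (l i : K) * z i) := by
    intro T
    refine Finset.induction_on T ?_ ?_
    · rw [Finset.sum_empty]
      have := hint 0
      rwa [cz] at this
    · intro i T hi ih
      rw [Finset.sum_insert hi]
      exact hadd _ _ (hmul _ _ (hz i)) ih
  exact key Finset.univ

/-- the matrix maps small vectors orthogonal to `x` to the line of `y` -/
theorem str_one (hDUA : T_DUA K) {s b n₀ : ℕ} {c CS : ℝ} (x y : Fin s → 𝓞 K) (H : ℝ) (θ φ : K)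
    (m : Fin s → Fin s → K) (hn : 1 ≤ n₀)
    (hn0 : ∀ a : K, InD a → ∃ b : 𝓞 K, (n₀ : K) * a = b) (hCS : 1 ≤ CS)
    (hb : 1 ≤ b) (gy : Gd b c y) (hH : 0 < H) (hc : 6 * n₀ * CS * (b : ℝ) ^ 4 ≤ c * H)
    (hmD : ∀ i l, InD (m i l))
    (hm : ∀ i l (w : InfinitePlace K), w (θ * x i * x l + φ * y i * y l - m i l) ≤ 1 / H)
    (l : Fin s → 𝓞 K) (hl : S3 l) (hlb : Bd (CS * (b : ℝ) ^ 4 / b) l)
    (h0 : ∑ i, l i * x i = 0) (a e : Fin s) :
    (y a : K) * (∑ i, (l i : K) * m i e) - y e * (∑ i, (l i : K) * m i a) = 0 := by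
  have hbR : (0 : ℝ) < b := by exact_mod_cast hb
  have hn0R : (0 : ℝ) < n₀ := by exact_mod_cast hn
  have hn0K : (n₀ : K) ≠ 0 := by
    exact_mod_cast (show n₀ ≠ 0 by omega)
  -- the size of `l`
  have hl1 : ∀ i (w : InfinitePlace K), w (l i : K) ≤ CS * (b : ℝ) ^ 3 := by
    intro i w
    refine (hlb i w).trans (le_of_eq ?_)
    field_simp
  -- the errors
  set E : Fin s → Fin s → K := fun i l => θ * x i * x l + φ * y i * y l - m i l with hE
  have h0K : ∑ i, (l i : K) * x i = 0 := by
    have h1 : ((∑ i, l i * x i : 𝓞 K) : K) = ((0 : 𝓞 K) : K) := by rw [h0]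
    rw [csm, cz] at h1
    simpa only [cmu] using h1
  have hz : ∀ a, (∑ i, (l i : K) * m i a) = φ * (∑ i, (l i : K) * y i) * y a -
      ∑ i, (l i : K) * E i a := by
    intro a
    have h1 : ∑ i, (l i : K) * E i a = θ * x a * (∑ i, (l i : K) * x i) +
        φ * (∑ i, (l i : K) * y i) * y a - ∑ i, (l i : K) * m i a := by
      rw [Finset.mul_sum, Finset.mul_sum, Finset.sum_mul, ← Finset.sum_add_distrib,
        ← Finset.sum_sub_distrib]
      refine Finset.sum_congr rfl fun i _ => ?_
      simp only [hE]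
      ring
    rw [h1, h0K]
    ring
  have hEb : ∀ a (w : InfinitePlace K), w (∑ i, (l i : K) * E i a) ≤
      3 * (CS * (b : ℝ) ^ 3 * (1 / H)) := by
    intro a w
    obtain ⟨t, ht⟩ := hl
    have h1 : ∑ i, (l i : K) * E i a = ∑ i ∈ Finset.univ.image t, (l i : K) * E i a := by
      symm
      refine Finset.sum_subset (Finset.subset_univ _) fun i _ hi => ?_
      have : l i = 0 := by
        refine ht i fun a ha => hi ?_
        exact Finset.mem_image.2 ⟨a, Finset.mem_univ _, ha⟩
      rw [this, cz, zero_mul]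
    have h2 : ∀ i, w ((l i : K) * E i a) ≤ CS * (b : ℝ) ^ 3 * (1 / H) := by
      intro i
      rw [map_mul]
      exact mul_le_mul (hl1 i w) (hm i a w) (apply_nonneg w _) (by positivity)
    have h3 : (Finset.univ.image t).card ≤ 3 := by
      refine Finset.card_image_le.trans ?_
      rw [Finset.card_univ, Fintype.card_fin]
    rw [h1]
    calc w (∑ i ∈ Finset.univ.image t, (l i : K) * E i a)
        ≤ ∑ i ∈ Finset.univ.image t, w ((l i : K) * E i a) := w.1.sum_le _ _
      _ ≤ ∑ _i ∈ Finset.univ.image t, CS * (b : ℝ) ^ 3 * (1 / H) :=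
          Finset.sum_le_sum fun i _ => h2 i
      _ = ((Finset.univ.image t).card : ℝ) * (CS * (b : ℝ) ^ 3 * (1 / H)) := by
          rw [Finset.sum_const, nsmul_eq_mul]
      _ ≤ 3 * (CS * (b : ℝ) ^ 3 * (1 / H)) := by
          refine mul_le_mul_of_nonneg_right ?_ (by positivity)
          exact_mod_cast h3
  -- the integral vector
  have hZ : ∀ a, ∃ u : 𝓞 K, (n₀ : K) * (∑ i, (l i : K) * m i a) = u := by
    intro a
    exact hn0 _ (ind_sum hDUA l (fun i => m i a) fun i => hmD i a)
  choose Z hZ using hZ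
  have hmn : ∀ a e, ((mnr y Z a e : 𝓞 K) : K) = (n₀ : K) *
      ((y a : K) * (∑ i, (l i : K) * m i e) - y e * (∑ i, (l i : K) * m i a)) := by
    intro a e
    unfold mnr
    rw [csb, cmu, cmu]
    have h1 := hZ a
    have h2 := hZ e
    linear_combination (-(y a : K)) * h2 + (y e : K) * h1
  have key : ∀ a e (w : InfinitePlace K), w ((mnr y Z a e : 𝓞 K) : K) ≤ c * (b : ℝ) ^ 3 := by
    intro a e w
    have h1 : ((y a : K) * (∑ i, (l i : K) * m i e) - y e * (∑ i, (l i : K) * m i a)) =
        y e * (∑ i, (l i : K) * E i a) - y a * (∑ i, (l i : K) * E i e) := by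
      rw [hz e, hz a]
      ring
    have h3 : ∀ a e, w ((y e : K) * (∑ i, (l i : K) * E i a)) ≤
        (b : ℝ) ^ 4 * (3 * (CS * (b : ℝ) ^ 3 * (1 / H))) := by
      intro a e
      rw [map_mul]
      exact mul_le_mul (gy.bd e w) (hEb a w) (apply_nonneg w _) (by positivity)
    have h4 : w (y e * (∑ i, (l i : K) * E i a) - y a * (∑ i, (l i : K) * E i e)) ≤
        (b : ℝ) ^ 4 * (3 * (CS * (b : ℝ) ^ 3 * (1 / H))) +
        (b : ℝ) ^ 4 * (3 * (CS * (b : ℝ) ^ 3 * (1 / H))) := by
      refine (AbsoluteValue.sub_le_add w.1 _ _).trans ?_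
      exact add_le_add (h3 a e) (h3 e a)
    have h5 : w (n₀ : K) = (n₀ : ℝ) := by
      rw [← InfinitePlace.norm_embedding_eq w, map_natCast]
      exact Complex.norm_natCast n₀
    rw [hmn, h1, map_mul, h5]
    have h7 : (n₀ : ℝ) * ((b : ℝ) ^ 4 * (3 * (CS * (b : ℝ) ^ 3 * (1 / H))) +
        (b : ℝ) ^ 4 * (3 * (CS * (b : ℝ) ^ 3 * (1 / H)))) =
        (6 * n₀ * CS * (b : ℝ) ^ 4) * (b : ℝ) ^ 3 / H := by
      field_simp
      ring
    refine (mul_le_mul_of_nonneg_left h4 hn0R.le).trans ?_
    rw [h7, div_le_iff₀ hH]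
    have h8 := mul_le_mul_of_nonneg_right hc (show (0 : ℝ) ≤ (b : ℝ) ^ 3 by positivity)
    linarith
  have h9 := gy.iso Z key a e
  have h10 := hmn a e
  rw [h9, cz] at h10
  exact (mul_eq_zero.1 h10.symm).resolve_left hn0K

/-- the relations between the minors -/
theorem str_two (hDUA : T_DUA K) {s b n₀ : ℕ} {c CS : ℝ}
    (hS : ∀ (s : ℕ) (B R : ℝ) (x : Fin s → 𝓞 K), 3 ≤ s → 1 ≤ R → Bd B x → Sup R x →
      ∀ φ : (Fin s → 𝓞 K) →ₗ[𝓞 K] K,
        (∀ l : Fin s → 𝓞 K, S3 l → Bd (CS * B / R) l → ∑ i, l i * x i = 0 → φ l = 0) →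
        ∀ i j, φ (Pi.single j (x i) - Pi.single i (x j)) = 0)
    (x y : Fin s → 𝓞 K) (H : ℝ) (θ φ : K)
    (m : Fin s → Fin s → K) (hn : 1 ≤ n₀)
    (hn0 : ∀ a : K, InD a → ∃ b : 𝓞 K, (n₀ : K) * a = b) (hCS : 1 ≤ CS) (hs3 : 3 ≤ s)
    (hb : 1 ≤ b) (gx : Gd b c x) (gy : Gd b c y) (hH : 0 < H)
    (hc : 6 * n₀ * CS * (b : ℝ) ^ 4 ≤ c * H) (hmD : ∀ i l, InD (m i l))
    (hm : ∀ i l (w : InfinitePlace K), w (θ * x i * x l + φ * y i * y l - m i l) ≤ 1 / H)
    (i j a e : Fin s) :
    (y a : K) * (x i * m j e - x j * m i e) = y e * (x i * m j a - x j * m i a) := by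
  set ph : (Fin s → 𝓞 K) →ₗ[𝓞 K] K :=
    { toFun := fun l => (y a : K) * (∑ i, (l i : K) * m i e) - y e * (∑ i, (l i : K) * m i a)
      map_add' := by
        intro l l'
        simp only [Pi.add_apply, cad, add_mul, Finset.sum_add_distrib]
        ring
      map_smul' := by
        intro r l
        simp only [Pi.smul_apply, smul_eq_mul, cmu, mul_assoc, ← Finset.mul_sum,
          RingHom.id_apply, Algebra.smul_def]
        have h : algebraMap (𝓞 K) K r = (r : K) := rfl
        rw [h]
        ring } with hph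
  have h1 := hS s ((b : ℝ) ^ 4) b x hs3 (by exact_mod_cast hb) gx.bd gx.sup ph (by
    intro l hl hlb h0
    exact str_one hDUA x y H θ φ m hn hn0 hCS hb gy hH hc hmD hm l hl hlb h0 a e) i j
  have h2 : ∀ (u : Fin s → K),
      ∑ t, ((Pi.single j (x i) - Pi.single i (x j) : Fin s → 𝓞 K) t : K) * u t =
      x i * u j - x j * u i := by
    intro u
    simp only [Pi.sub_apply, csb, sub_mul, Finset.sum_sub_distrib]
    have h3 : ∀ (k : Fin s) (v : 𝓞 K),
        ∑ t, ((Pi.single k v : Fin s → 𝓞 K) t : K) * u t = v * u k := by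
      intro k v
      rw [Finset.sum_eq_single k]
      · simp
      · intro t _ ht
        rw [Pi.single_eq_of_ne ht, cz, zero_mul]
      · intro h
        exact absurd (Finset.mem_univ k) h
    rw [h3, h3]
  have h3 : (y a : K) *
      (∑ t, ((Pi.single j (x i) - Pi.single i (x j) : Fin s → 𝓞 K) t : K) * m t e) -
      y e * (∑ t, ((Pi.single j (x i) - Pi.single i (x j) : Fin s → 𝓞 K) t : K) * m t a) = 0 := h1
  rw [h2 (fun t => m t e), h2 (fun t => m t a)] at h3
  linear_combination h3

end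

/-- **STR.** -/
theorem pf_STR (K : Type) [Field K] [NumberField K] (hSPN : T_SPN K) (hDUA : T_DUA K) :
    T_STR K := by
  obtain ⟨CS, hCS, hS⟩ := hSPN
  obtain ⟨n₀, hn, hn0⟩ := hDUA.2.2.2.2
  have hnR : (1 : ℝ) ≤ n₀ := by exact_mod_cast hn
  refine ⟨6 * n₀ * CS, by nlinarith, ?_⟩
  intro s b c H x y θ φ m hs3 hb gx gy hdm hH hc hsym hmD hm
  have h2 := str_two hDUA hS x y H θ φ m hn hn0 hCS hs3 hb gx gy hH hc hmD hm
  have hm' : ∀ i l (w : InfinitePlace K),
      w (φ * y i * y l + θ * x i * x l - m i l) ≤ 1 / H := by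
    intro i l w
    have := hm i l w
    rw [add_comm (θ * x i * x l : K)] at this
    exact this
  have h3 := str_two hDUA hS y x H φ θ m hn hn0 hCS hs3 hb gy gx hH hc hmD hm'
  obtain ⟨p, q, hpq⟩ := hdm
  refine str_alg (fun i => (x i : K)) (fun i => (y i : K)) m hsym
    (fun i j a e => h2 i j a e) (fun i j a e => h3 i j a e) p q ?_
  intro h
  refine hpq ?_
  refine RingOfIntegers.ext ?_
  rw [cz]
  unfold mnr
  rw [csb, cmu, cmu]
  exact h

end Pool.Agent.H96.RK
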